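import Pool.Agent.MP_9181f8_al.Camina

open Pool.Agent.MP_9181f8_al

/-- Every finite group of exponent dividing `13` and nilpotency class at most two embeds in a
finite solvable group lying in all four classes USR, SR, QSR and QR. -/
theorem Pool.Agent.MP_9181f8_al.classTwo_all (P : Type) [Group P] [Finite P]
    (hexp : ∀ g : P, g ^ 13 = 1) (hcl : commutator P ≤ Subgroup.center P) :
    ∃ (G : Type) (_ : Group G), Finite G ∧ Group.IsSolvable G ∧
      IsUSR G ∧ IsSR G ∧ IsQSR G ∧ IsQR G ∧ ∃ f : P →* G, Function.Injective f := by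
  obtain ⟨G, _, h1, h2, h3, h4, h5⟩ := embed (P := P)
    ⟨fun x y => hcl (Subgroup.commutator_mem_commutator (Subgroup.mem_top x)
      (Subgroup.mem_top y)), hexp⟩
  have h6 : IsSR G := by
    obtain ⟨m, hm⟩ := h3
    exact fun x => ⟨m, hm x⟩
  exact ⟨G, inferInstance, h1, h2, h3, h6, ⟨h6, h4⟩, h4, h5⟩
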